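import Mathlib

/-! Definitions: compensations and compensation functions on the dual of `C(K)`. -/

namespace Pool.Agent.Q196.CF

open Set Topology Filter

set_option linter.unusedSectionVars false

variable {K : Type*} [TopologicalSpace K] [CompactSpace K]

/-- The value at `f ≥ 0` of the positive part `μ⁺` of `μ` (Riesz-Kantorovich formula):
`μ⁺(f) = sup {μ(g) : 0 ≤ g ≤ f}`. -/
noncomputable def posPart (μ : WeakDual ℝ C(K, ℝ)) (f : C(K, ℝ)) : ℝ :=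
  sSup {r : ℝ | ∃ g : C(K, ℝ), 0 ≤ g ∧ g ≤ f ∧ μ g = r}

/-- `ν` is a compensation of `μ`: either `μ(K) > 0`, `0 ≤ ν ≤ μ⁺` and `ν(K) = μ(K)`, or
`μ(K) ≤ 0` and `ν = 0`.  Here `μ(K) = μ(1)`. -/
def IsCompensation (μ ν : WeakDual ℝ C(K, ℝ)) : Prop :=
  (0 < μ 1 ∧ (∀ f : C(K, ℝ), 0 ≤ f → 0 ≤ ν f ∧ ν f ≤ posPart μ f) ∧ ν 1 = μ 1) ∨
    (μ 1 ≤ 0 ∧ ν = 0)

/-- `ξ` is an `M`-compensation function: weak*-to-weak* continuous on `M`, and `ξ μ` is a
compensation of `μ` for every `μ ∈ M`. -/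
def IsCompensationFunction (M : Set (WeakDual ℝ C(K, ℝ)))
    (ξ : WeakDual ℝ C(K, ℝ) → WeakDual ℝ C(K, ℝ)) : Prop :=
  ContinuousOn ξ M ∧ ∀ μ ∈ M, IsCompensation μ (ξ μ)

variable (K) in
/-- The closed unit ball of the dual of `C(K)`. -/
def dualBall : Set (WeakDual ℝ C(K, ℝ)) :=
  {μ | ‖WeakDual.toStrongDual μ‖ ≤ 1}

theorem apply_le_norm (μ : WeakDual ℝ C(K, ℝ)) (g : C(K, ℝ)) :
    μ g ≤ ‖WeakDual.toStrongDual μ‖ * ‖g‖ := by
  have h := (WeakDual.toStrongDual μ).le_opNorm g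
  rw [Real.norm_eq_abs] at h
  exact (le_abs_self _).trans h

theorem bddAbove_pos (μ : WeakDual ℝ C(K, ℝ)) (f : C(K, ℝ)) :
    BddAbove {r : ℝ | ∃ g : C(K, ℝ), 0 ≤ g ∧ g ≤ f ∧ μ g = r} := by
  refine ⟨‖WeakDual.toStrongDual μ‖ * ‖f‖, ?_⟩
  rintro _ ⟨g, hg0, hgf, rfl⟩
  refine (apply_le_norm μ g).trans
    (mul_le_mul_of_nonneg_left ?_ (ContinuousLinearMap.opNorm_nonneg _))
  rw [ContinuousMap.norm_le _ (norm_nonneg _)]
  intro x
  have h1 : 0 ≤ g x := hg0 x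
  have h2 : g x ≤ f x := hgf x
  rw [Real.norm_eq_abs, abs_of_nonneg h1]
  exact h2.trans ((le_abs_self _).trans (f.norm_coe_le_norm x))

theorem le_posPart (μ : WeakDual ℝ C(K, ℝ)) {f g : C(K, ℝ)} (hg : 0 ≤ g) (hgf : g ≤ f) :
    μ g ≤ posPart μ f :=
  le_csSup (bddAbove_pos μ f) ⟨g, hg, hgf, rfl⟩

theorem posPart_le (μ : WeakDual ℝ C(K, ℝ)) {f : C(K, ℝ)} (hf : 0 ≤ f) {c : ℝ}
    (h : ∀ g : C(K, ℝ), 0 ≤ g → g ≤ f → μ g ≤ c) : posPart μ f ≤ c := by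
  refine csSup_le ⟨μ 0, 0, le_rfl, hf, rfl⟩ ?_
  rintro _ ⟨g, hg0, hgf, rfl⟩
  exact h g hg0 hgf

/-- Evaluation functional. -/
noncomputable def dirac (x : K) : WeakDual ℝ C(K, ℝ) :=
  StrongDual.toWeakDual (ContinuousMap.evalCLM ℝ x)

@[simp] theorem dirac_apply (x : K) (f : C(K, ℝ)) : dirac x f = f x := rfl

theorem continuous_dirac : Continuous (dirac : K → WeakDual ℝ C(K, ℝ)) := by
  refine WeakBilin.continuous_of_continuous_eval _ ?_
  intro f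
  exact f.continuous

/-- The test functional `(δ_x + δ_y - δ_z)/3`. -/
noncomputable def tst (p : K × K × K) : WeakDual ℝ C(K, ℝ) :=
  (1 / 3 : ℝ) • (dirac p.1 + dirac p.2.1 - dirac p.2.2)

theorem tst_apply (p : K × K × K) (f : C(K, ℝ)) :
    tst p f = (1 / 3 : ℝ) * (f p.1 + f p.2.1 - f p.2.2) := rfl

theorem continuous_tst : Continuous (tst : K × K × K → WeakDual ℝ C(K, ℝ)) := by
  refine WeakBilin.continuous_of_continuous_eval _ ?_
  intro f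
  change Continuous fun p : K × K × K => (1 / 3 : ℝ) * (f p.1 + f p.2.1 - f p.2.2)
  fun_prop

theorem tst_mem (p : K × K × K) : tst p ∈ dualBall K := by
  change ‖WeakDual.toStrongDual (tst p)‖ ≤ 1
  refine ContinuousLinearMap.opNorm_le_bound _ zero_le_one ?_
  intro f
  rw [WeakDual.toStrongDual_apply, tst_apply, Real.norm_eq_abs, abs_le]
  have h1 := abs_le.1 (f.norm_coe_le_norm p.1)
  have h2 := abs_le.1 (f.norm_coe_le_norm p.2.1)
  have h3 := abs_le.1 (f.norm_coe_le_norm p.2.2)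
  constructor <;> linarith [h1.1, h1.2, h2.1, h2.2, h3.1, h3.2]

end Pool.Agent.Q196.CF
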