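import Pool.Agent.Q196.CF.Sep
import Pool.Agent.Q196.CF.Defs

/-! A compensation function on the unit ball yields a continuous separating family. -/

namespace Pool.Agent.Q196.CF

open Set Topology Filter

set_option linter.unusedSectionVars false

variable {K : Type*} [TopologicalSpace K] [CompactSpace K] [T2Space K]

/-- Abstract data extracted from a compensation function on the ball. -/
structure Eta (K : Type*) [TopologicalSpace K] [CompactSpace K] where
  η : K × K × K → WeakDual ℝ C(K, ℝ)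
  cont : Continuous η
  nonneg : ∀ p f, 0 ≤ f → 0 ≤ η p f
  le_add : ∀ p f, 0 ≤ f → η p f ≤ f p.1 + f p.2.1
  le_left : ∀ x y f, 0 ≤ f → η (x, y, y) f ≤ f x
  le_right : ∀ x y f, 0 ≤ f → η (x, y, x) f ≤ f y
  one : ∀ p, η p 1 = 1

/-- From a compensation function on the unit ball to `Eta`. -/
theorem eta_of_ball (ξ : WeakDual ℝ C(K, ℝ) → WeakDual ℝ C(K, ℝ))
    (hξ : IsCompensationFunction (dualBall K) ξ) : Nonempty (Eta K) := by
  have h1 : ∀ p : K × K × K, tst p 1 = 1 / 3 := by
    intro p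
    rw [tst_apply]
    simp
  have h2 : ∀ p : K × K × K, (∀ f : C(K, ℝ), 0 ≤ f → 0 ≤ ξ (tst p) f ∧
      ξ (tst p) f ≤ posPart (tst p) f) ∧ ξ (tst p) 1 = 1 / 3 := by
    intro p
    rcases hξ.2 (tst p) (tst_mem p) with h | h
    · exact ⟨h.2.1, by rw [h.2.2, h1]⟩
    · exfalso
      have := h.1
      rw [h1] at this
      norm_num at this
  have hc : Continuous fun p : K × K × K => ξ (tst p) :=
    hξ.1.comp_continuous continuous_tst tst_mem
  have hgen : ∀ (p : K × K × K) (f : C(K, ℝ)) (c : ℝ), 0 ≤ f →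
      (∀ g : C(K, ℝ), 0 ≤ g → g ≤ f → g p.1 + g p.2.1 - g p.2.2 ≤ c) →
      3 * ξ (tst p) f ≤ c := by
    intro p f c hf h
    have h3 := ((h2 p).1 f hf).2
    have h4 : posPart (tst p) f ≤ c / 3 := by
      refine posPart_le _ hf ?_
      intro g hg hgf
      have := h g hg hgf
      rw [tst_apply]
      linarith
    linarith
  have hc3 : Continuous fun p : K × K × K => (3 : ℝ) • ξ (tst p) := by
    refine WeakBilin.continuous_of_continuous_eval _ ?_
    intro f
    change Continuous fun p : K × K × K => 3 * ξ (tst p) f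
    exact continuous_const.mul ((WeakDual.eval_continuous f).comp hc)
  refine ⟨⟨fun p => (3 : ℝ) • ξ (tst p), hc3, ?_, ?_, ?_, ?_, ?_⟩⟩
  · intro p f hf
    change 0 ≤ 3 * ξ (tst p) f
    have := ((h2 p).1 f hf).1
    linarith
  · intro p f hf
    change 3 * ξ (tst p) f ≤ _
    refine hgen p f _ hf ?_
    intro g hg hgf
    have e1 : g p.1 ≤ f p.1 := hgf _
    have e2 : g p.2.1 ≤ f p.2.1 := hgf _
    have e3 : 0 ≤ g p.2.2 := hg _
    linarith
  · intro x y f hf
    change 3 * ξ (tst (x, y, y)) f ≤ _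
    refine hgen _ f _ hf ?_
    intro g hg hgf
    have e1 : g x ≤ f x := hgf _
    change g x + g y - g y ≤ f x
    linarith
  · intro x y f hf
    change 3 * ξ (tst (x, y, x)) f ≤ _
    refine hgen _ f _ hf ?_
    intro g hg hgf
    have e1 : g y ≤ f y := hgf _
    change g x + g y - g x ≤ f y
    linarith
  · intro p
    change 3 * ξ (tst p) 1 = 1
    rw [(h2 p).2]
    norm_num

namespace Eta

variable (T : Eta K)

theorem eq_zero (x y z : K) (f : C(K, ℝ)) (hx : f x = 0) (hy : f y = 0) :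
    T.η (x, y, z) f = 0 := by
  have h0 : (0 : C(K, ℝ)) ≤ |f| := abs_nonneg f
  have h1 : T.η (x, y, z) |f| ≤ 0 := by
    have h := T.le_add (x, y, z) |f| h0
    have e1 : |f| x = |f x| := rfl
    have e2 : |f| y = |f y| := rfl
    change T.η (x, y, z) |f| ≤ |f| x + |f| y at h
    rw [e1, e2, hx, hy] at h
    simpa using h
  have h2 : 0 ≤ T.η (x, y, z) (|f| - f) := T.nonneg _ _ (sub_nonneg.2 (le_abs_self f))
  have h3 : 0 ≤ T.η (x, y, z) (|f| + f) := T.nonneg _ _
    (neg_le_iff_add_nonneg.1 (neg_le_abs f))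
  rw [map_sub] at h2
  rw [map_add] at h3
  linarith

theorem congr (x y z : K) (f g : C(K, ℝ)) (hx : f x = g x) (hy : f y = g y) :
    T.η (x, y, z) f = T.η (x, y, z) g := by
  have h := T.eq_zero x y z (f - g) (by simp [hx]) (by simp [hy])
  rw [map_sub] at h
  linarith

theorem at_left (x y : K) (f : C(K, ℝ)) (hf : 0 ≤ f) (hf1 : f ≤ 1) (hx : f x = 1) :
    T.η (x, y, y) f = 1 := by
  have h1 := T.le_left x y f hf
  have h2 := T.le_left x y (1 - f) (sub_nonneg.2 hf1)
  rw [map_sub, T.one] at h2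
  have h3 : (1 - f) x = 0 := by simp [hx]
  rw [h3] at h2
  rw [hx] at h1
  linarith

theorem at_right (x y : K) (f : C(K, ℝ)) (hf : 0 ≤ f) (hy : f y = 0) :
    T.η (x, y, x) f = 0 := by
  have h1 := T.le_right x y f hf
  have h2 := T.nonneg (x, y, x) f hf
  rw [hy] at h1
  linarith

end Eta

theorem exists_urysohn (x y : K) (hxy : x ≠ y) :
    ∃ f : C(K, ℝ), 0 ≤ f ∧ f ≤ 1 ∧ f x = 1 ∧ f y = 0 := by
  obtain ⟨f, hf0, hf1, hf⟩ := exists_continuous_zero_one_of_isClosed
    (isClosed_singleton (x := y)) (isClosed_singleton (x := x))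
    (by rw [Set.disjoint_singleton]; exact hxy.symm)
  exact ⟨f, fun z => (hf z).1, fun z => (hf z).2, hf1 rfl, hf0 rfl⟩

theorem exists_urysohn_left (x y : K) (hxy : x ≠ y) :
    ∃ f : C(K, ℝ), (∀ᶠ x' in 𝓝 x, f x' = 1) ∧ f y = 0 := by
  obtain ⟨f, hf0, hf1, hfx, hfy⟩ := exists_urysohn x y hxy
  refine ⟨⟨fun z => min (2 * f z) 1, by fun_prop⟩, ?_, ?_⟩
  · have h1 : ∀ᶠ x' in 𝓝 x, 1 / 2 < f x' :=
      f.continuous.continuousAt.eventually_const_lt (by rw [hfx]; norm_num)
    filter_upwards [h1] with x' hx'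
    change min (2 * f x') 1 = 1
    exact min_eq_right (by linarith)
  · change min (2 * f y) 1 = 0
    rw [hfy]
    norm_num

theorem exists_urysohn_right (x y : K) (hxy : x ≠ y) :
    ∃ f : C(K, ℝ), f x = 1 ∧ ∀ᶠ y' in 𝓝 y, f y' = 0 := by
  obtain ⟨f, hf1, hf0⟩ := exists_urysohn_left y x hxy.symm
  refine ⟨1 - f, by simp [hf0], ?_⟩
  filter_upwards [hf1] with y' hy'
  simp [hy']

/-- The separating family obtained from `Eta`. -/
theorem sepFam_of_eta (T : Eta K) : Nonempty (SepFam K) := by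
  classical
  have hu : ∀ x y : K, ∃ f : C(K, ℝ), x ≠ y → (0 ≤ f ∧ f ≤ 1 ∧ f x = 1 ∧ f y = 0) := by
    intro x y
    by_cases h : x = y
    · exact ⟨0, fun h' => absurd h h'⟩
    · obtain ⟨f, hf⟩ := exists_urysohn x y h
      exact ⟨f, fun _ => hf⟩
  choose u hu using hu
  have hcf : ∀ f : C(K, ℝ), Continuous fun p : K × K × K => T.η p f := fun f =>
    (WeakDual.eval_continuous f).comp T.cont
  -- the slices
  let ψ : C(K, ℝ) → K → K → C(K, ℝ) := fun f x y =>
    ⟨fun z => T.η (x, y, z) f, (hcf f).comp (by fun_prop)⟩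
  have hψl : ∀ f y, Continuous fun x => ψ f x y := by
    intro f y
    exact (ContinuousMap.curry ⟨fun p : K × K => T.η (p.1, y, p.2) f,
      (hcf f).comp (by fun_prop)⟩).continuous
  have hψr : ∀ f x, Continuous fun y => ψ f x y := by
    intro f x
    exact (ContinuousMap.curry ⟨fun p : K × K => T.η (x, p.1, p.2) f,
      (hcf f).comp (by fun_prop)⟩).continuous
  have hψc : ∀ f g x y, f x = g x → f y = g y → ψ f x y = ψ g x y := by
    intro f g x y hx hy
    ext z
    exact T.congr x y z f g hx hy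
  refine ⟨⟨fun x y => ψ (u x y) x y, ?_, ?_, ?_, ?_⟩⟩
  · intro x y hxy
    exact T.at_right x y _ (hu x y hxy).1 (hu x y hxy).2.2.2
  · intro x y hxy
    exact T.at_left x y _ (hu x y hxy).1 (hu x y hxy).2.1 (hu x y hxy).2.2.1
  · intro x y hxy
    obtain ⟨f, hf1, hf0⟩ := exists_urysohn_left x y hxy
    refine ((hψl f y).continuousAt (x := x)).congr ?_
    filter_upwards [hf1, isOpen_ne.mem_nhds hxy] with x' hx' hne
    exact hψc _ _ _ _ (by rw [hx', (hu x' y hne).2.2.1]) (by rw [hf0, (hu x' y hne).2.2.2])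
  · intro x y hxy
    obtain ⟨f, hf1, hf0⟩ := exists_urysohn_right x y hxy
    refine ((hψr f x).continuousAt (x := y)).congr ?_
    filter_upwards [hf0, isOpen_ne.mem_nhds hxy.symm] with y' hy' hne
    exact hψc _ _ _ _ (by rw [hf1, (hu x y' hne.symm).2.2.1])
      (by rw [hy', (hu x y' hne.symm).2.2.2])

/-- A compact space admitting a ball-compensation function is metrizable. -/
theorem metrizable_of_ball (ξ : WeakDual ℝ C(K, ℝ) → WeakDual ℝ C(K, ℝ))
    (hξ : IsCompensationFunction (dualBall K) ξ) : TopologicalSpace.MetrizableSpace K := by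
  obtain ⟨T⟩ := eta_of_ball ξ hξ
  obtain ⟨S⟩ := sepFam_of_eta T
  exact metrizable_of_sepFam S

end Pool.Agent.Q196.CF
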