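import Pool.Agent.Q196.CF.Tree

/-! Partitions of unity on a compact metric space. -/

namespace Pool.Agent.Q196.CF

open Set Topology Filter

set_option linter.unusedSectionVars false

theorem exists_partition {K : Type*} [MetricSpace K] [CompactSpace K] (ε : ℝ) (hε : 0 < ε) :
    ∃ (m : ℕ) (q : ℕ → C(K, ℝ)), (∀ i x, 0 ≤ q i x) ∧ (∀ i, m ≤ i → q i = 0) ∧
      (∑ i ∈ Finset.range m, q i = 1) ∧
      ∀ i x y, q i x ≠ 0 → q i y ≠ 0 → dist x y < 2 * ε := by
  obtain ⟨t, ht⟩ := CompactSpace.elim_nhds_subcover (fun x : K => Metric.ball x ε)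
    (fun x => Metric.ball_mem_nhds x hε)
  let e : Fin t.card ≃ t := t.equivFin.symm
  let g : ℕ → C(K, ℝ) := fun i =>
    if h : i < t.card then
      ⟨fun x => max 0 (ε - dist x (e ⟨i, h⟩ : K)), by fun_prop⟩ else 0
  have hg1 : ∀ (i : ℕ) (h : i < t.card) (x : K), g i x = max 0 (ε - dist x (e ⟨i, h⟩ : K)) := by
    intro i h x
    have : g i = ⟨fun x => max 0 (ε - dist x (e ⟨i, h⟩ : K)), by fun_prop⟩ := dif_pos h
    rw [this]
    rfl
  have hg2 : ∀ (i : ℕ), ¬ i < t.card → g i = 0 := fun i h => dif_neg h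
  have hg0 : ∀ i x, 0 ≤ g i x := by
    intro i x
    by_cases h : i < t.card
    · rw [hg1 i h]; exact le_max_left _ _
    · rw [hg2 i h]; exact le_rfl
  have hG : ∀ x : K, 0 < ∑ i ∈ Finset.range t.card, g i x := by
    intro x
    have h1 : x ∈ (⊤ : Set K) := mem_univ x
    rw [← ht] at h1
    obtain ⟨c, hc, hxc⟩ := mem_iUnion₂.1 h1
    have h2 : dist x c < ε := hxc
    refine Finset.sum_pos' (fun i _ => hg0 i x) ⟨(e.symm ⟨c, hc⟩ : ℕ), ?_, ?_⟩
    · exact Finset.mem_range.2 (e.symm ⟨c, hc⟩).2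
    · rw [hg1 _ (e.symm ⟨c, hc⟩).2]
      have h3 : e ⟨(e.symm ⟨c, hc⟩ : ℕ), (e.symm ⟨c, hc⟩).2⟩ = ⟨c, hc⟩ := e.apply_symm_apply _
      rw [h3]
      exact lt_max_of_lt_right (by linarith)
  let q : ℕ → C(K, ℝ) := fun i =>
    ⟨fun x => g i x / ∑ j ∈ Finset.range t.card, g j x,
      (g i).continuous.div (continuous_finsetSum _ fun j _ => (g j).continuous)
        fun x => (hG x).ne'⟩
  have hq : ∀ i x, q i x = g i x / ∑ j ∈ Finset.range t.card, g j x := fun i x => rfl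
  have hq3 : ∀ i x, q i x ≠ 0 → ∃ h : i < t.card, dist x (e ⟨i, h⟩ : K) < ε := by
    intro i x hx
    by_cases h : i < t.card
    · refine ⟨h, ?_⟩
      by_contra hcon
      apply hx
      rw [hq, hg1 i h, max_eq_left (by linarith [not_lt.1 hcon]), zero_div]
    · exfalso
      apply hx
      rw [hq, hg2 i h]
      simp
  refine ⟨t.card, q, ?_, ?_, ?_, ?_⟩
  · intro i x
    exact div_nonneg (hg0 i x) (hG x).le
  · intro i hi
    ext x
    rw [hq, hg2 i (not_lt.2 hi)]
    simp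
  · ext x
    rw [ContinuousMap.sum_apply]
    simp_rw [hq]
    rw [← Finset.sum_div, div_self (hG x).ne']
    rfl
  · intro i x y hx hy
    obtain ⟨h, h1⟩ := hq3 i x hx
    obtain ⟨h', h2⟩ := hq3 i y hy
    have h3 := dist_triangle_right x y (e ⟨i, h⟩ : K)
    linarith

theorem exists_parts (K : Type*) [TopologicalSpace K] [CompactSpace K]
    [TopologicalSpace.MetrizableSpace K] : Nonempty (Parts K) := by
  letI := TopologicalSpace.metrizableSpaceMetric K
  have h1 : ∀ n : ℕ, ∃ (m : ℕ) (q : ℕ → C(K, ℝ)), (∀ i x, 0 ≤ q i x) ∧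
      (∀ i, m ≤ i → q i = 0) ∧ (∑ i ∈ Finset.range m, q i = 1) ∧
      ∀ i x y, q i x ≠ 0 → q i y ≠ 0 → dist x y < 2 * (1 / ((n : ℝ) + 1)) := fun n =>
    exists_partition _ Nat.one_div_pos_of_nat
  choose m q hq1 hq2 hq3 hq4 using h1
  refine ⟨⟨m, q, hq1, hq2, hq3, ?_⟩⟩
  intro f ε hε
  have hf : UniformContinuous f := CompactSpace.uniformContinuous_of_continuous f.continuous
  obtain ⟨δ, hδ, h⟩ := Metric.uniformContinuous_iff.1 hf ε hε
  obtain ⟨N, hN⟩ := exists_nat_one_div_lt (half_pos hδ)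
  refine ⟨N, ?_⟩
  intro n hn i x y hx hy
  have h2 := hq4 n i x y hx hy
  have h3 : 1 / ((n : ℝ) + 1) ≤ 1 / ((N : ℝ) + 1) := Nat.one_div_le_one_div hn
  have h4 : dist x y < δ := by linarith
  have h5 := h h4
  rw [Real.dist_eq] at h5
  exact h5.le

/-- A metrizable compact space admits a compensation function. -/
theorem exists_compensation (K : Type*) [TopologicalSpace K] [CompactSpace K]
    [TopologicalSpace.MetrizableSpace K] :
    ∃ ξ : WeakDual ℝ C(K, ℝ) → WeakDual ℝ C(K, ℝ), IsCompensationFunction univ ξ := by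
  rcases isEmpty_or_nonempty K with h | h
  · refine ⟨fun _ => 0, continuousOn_const, ?_⟩
    intro μ _
    right
    refine ⟨?_, rfl⟩
    have h1 : (1 : C(K, ℝ)) = 0 := by
      ext x
      exact (h.false x).elim
    rw [h1, map_zero]
  · obtain ⟨Q⟩ := exists_parts K
    exact ⟨Q.xi, Q.continuous_xi.continuousOn, fun μ _ => Q.xi_compensation μ⟩

end Pool.Agent.Q196.CF
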