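import Mathlib

/-! A compact Hausdorff space admitting a continuous separating family of functions
(separately continuous into `C(K)`) is metrizable. -/

namespace Pool.Agent.Q196.CF

open Set Topology Filter

/-- A (separately) continuous separating family of real functions on a compact space. -/
structure SepFam (K : Type*) [TopologicalSpace K] [CompactSpace K] where
  /-- the family of functions -/
  φ : K → K → C(K, ℝ)
  left_zero : ∀ x y, x ≠ y → φ x y x = 0
  right_one : ∀ x y, x ≠ y → φ x y y = 1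
  cont_left : ∀ x y, x ≠ y → ContinuousAt (fun x' => φ x' y) x
  cont_right : ∀ x y, x ≠ y → ContinuousAt (fun y' => φ x y') y

variable {K : Type*} [TopologicalSpace K] [CompactSpace K]

/-- A `1/4`-separated subset of the punctured space has finite trace outside each neighbourhood. -/
theorem finite_outside (S : SepFam K) (x : K) (Y : Set K)
    (hsep : Y.Pairwise fun β β' => 1 / 4 ≤ dist (S.φ x β) (S.φ x β')) (W : Set K)
    (hW : W ∈ 𝓝 x) : (Y \ W).Finite := by
  obtain ⟨O, hOW, hO, hxO⟩ := mem_nhds_iff.1 hW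
  have hc : IsCompact (Oᶜ : Set K) := hO.isClosed_compl.isCompact
  have h1 : ∀ y ∈ (Oᶜ : Set K), ∃ t ∈ 𝓝[Oᶜ] y, (Y ∩ t).Subsingleton := by
    intro y hy
    have hxy : x ≠ y := by rintro rfl; exact hy hxO
    have h2 := S.cont_right x y hxy
    have h3 : ∀ᶠ y' in 𝓝 y, dist (S.φ x y') (S.φ x y) < 1 / 8 :=
      (Metric.tendsto_nhds.1 h2) _ (by norm_num)
    refine ⟨{y' | dist (S.φ x y') (S.φ x y) < 1 / 8}, mem_nhdsWithin_of_mem_nhds h3, ?_⟩
    rintro β ⟨hβ, hβ'⟩ γ ⟨hγ, hγ'⟩
    by_contra hne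
    have h4 := hsep hβ hγ hne
    have h5 : dist (S.φ x β) (S.φ x y) < 1 / 8 := hβ'
    have h6 : dist (S.φ x γ) (S.φ x y) < 1 / 8 := hγ'
    have h7 := dist_triangle_right (S.φ x β) (S.φ x γ) (S.φ x y)
    linarith
  choose! t ht hts using h1
  obtain ⟨F, hF, hcov⟩ := hc.elim_nhdsWithin_subcover t (fun y hy => ht y hy)
  have h2 : Y \ W ⊆ ⋃ y ∈ F, (Y ∩ t y) := by
    rintro z ⟨hzY, hzW⟩
    have h3 : z ∈ (Oᶜ : Set K) := fun h => hzW (hOW h)
    obtain ⟨y, hy, hzy⟩ := mem_iUnion₂.1 (hcov h3)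
    exact mem_iUnion₂.2 ⟨y, hy, hzY, hzy⟩
  refine Set.Finite.subset (Set.Finite.biUnion F.finite_toSet ?_) h2
  intro y hy
  exact (hts y (hF y hy)).finite

/-- Such separated sets are countable. -/
theorem countable_of_sep (S : SepFam K) (x : K) (Y : Set K) (hY : x ∉ Y)
    (hsep : Y.Pairwise fun β β' => 1 / 4 ≤ dist (S.φ x β) (S.φ x β')) : Y.Countable := by
  by_contra hunc
  have hfin : ∀ W ∈ 𝓝 x, (Y \ W).Finite := fun W hW => finite_outside S x Y hsep W hW
  have hF : ∀ α, α ≠ x → {β ∈ Y | 1 / 4 ≤ dist (S.φ α β) (S.φ α x)}.Finite := by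
    intro α hα
    have h2 := S.cont_right α x hα
    have h3 : ∀ᶠ y' in 𝓝 x, dist (S.φ α y') (S.φ α x) < 1 / 4 :=
      (Metric.tendsto_nhds.1 h2) _ (by norm_num)
    refine (hfin _ h3).subset ?_
    rintro β ⟨h4, h5⟩
    exact ⟨h4, fun h6 => absurd h6 (not_lt.2 h5)⟩
  have hG : ∀ β, β ≠ x → {α ∈ Y | 1 / 4 ≤ dist (S.φ α β) (S.φ x β)}.Finite := by
    intro β hβ
    have h2 := S.cont_left x β hβ.symm
    have h3 : ∀ᶠ y' in 𝓝 x, dist (S.φ y' β) (S.φ x β) < 1 / 4 :=
      (Metric.tendsto_nhds.1 h2) _ (by norm_num)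
    refine (hfin _ h3).subset ?_
    rintro β ⟨h4, h5⟩
    exact ⟨h4, fun h6 => absurd h6 (not_lt.2 h5)⟩
  have hinf : Y.Infinite := fun h => hunc h.countable
  obtain ⟨A, hAY, hAinf, hAc⟩ : ∃ A ⊆ Y, A.Infinite ∧ A.Countable := by
    obtain ⟨f, hf⟩ := Set.Infinite.exists_subset_card_eq hinf 0
    let e := hinf.natEmbedding
    refine ⟨Set.range (fun n => (e n : K)), ?_, ?_, Set.countable_range _⟩
    · rintro _ ⟨n, rfl⟩; exact (e n).2
    · exact Set.infinite_range_of_injective
        (fun a b h => e.injective (Subtype.ext h))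
  have hne : ∀ α ∈ Y, α ≠ x := fun α hα h => hY (h ▸ hα)
  have hcnt : (A ∪ ⋃ α ∈ A, {β ∈ Y | 1 / 4 ≤ dist (S.φ α β) (S.φ α x)}).Countable := by
    refine hAc.union (hAc.biUnion ?_)
    intro α hα
    exact (hF α (hne α (hAY hα))).countable
  obtain ⟨β, hβY, hβ⟩ : ∃ β ∈ Y,
      β ∉ (A ∪ ⋃ α ∈ A, {β ∈ Y | 1 / 4 ≤ dist (S.φ α β) (S.φ α x)}) := by
    by_contra h
    push Not at h
    exact hunc (hcnt.mono h)
  have hβx := hne β hβY
  obtain ⟨α, hαA, hαG⟩ : ∃ α ∈ A, α ∉ {α ∈ Y | 1 / 4 ≤ dist (S.φ α β) (S.φ x β)} := by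
    by_contra h
    push Not at h
    exact hAinf ((hG β hβx).subset h)
  have hαx := hne α (hAY hαA)
  have h1 : dist (S.φ α β) (S.φ α x) < 1 / 4 := by
    by_contra h
    apply hβ
    right
    exact mem_iUnion₂.2 ⟨α, hαA, hβY, not_lt.1 h⟩
  have h2 : dist (S.φ α β) (S.φ x β) < 1 / 4 := by
    by_contra h
    exact hαG ⟨hAY hαA, not_lt.1 h⟩
  have h3 := (ContinuousMap.dist_apply_le_dist (f := S.φ α β) (g := S.φ α x) x).trans_lt h1
  have h4 := (ContinuousMap.dist_apply_le_dist (f := S.φ α β) (g := S.φ x β) x).trans_lt h2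
  rw [S.right_one α x hαx, Real.dist_eq] at h3
  rw [S.left_zero x β hβx.symm, Real.dist_eq] at h4
  have h5 := abs_lt.1 h3
  have h6 := abs_lt.1 h4
  linarith [h5.1, h6.2]

/-- For each `x` countably many functions `1/4`-approximate all the `φ x y`. -/
theorem exists_net (S : SepFam K) (x : K) :
    ∃ a : ℕ → C(K, ℝ), ∀ y, y ≠ x → ∃ n, dist (S.φ x y) (a n) < 1 / 4 := by
  obtain ⟨Y, hYmax⟩ := zorn_subset
    {Y : Set K | x ∉ Y ∧ Y.Pairwise fun β β' => 1 / 4 ≤ dist (S.φ x β) (S.φ x β')} (by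
      intro c hc hchain
      refine ⟨⋃₀ c, ⟨?_, ?_⟩, fun s hs => subset_sUnion_of_mem hs⟩
      · rintro ⟨s, hs, hxs⟩
        exact (hc hs).1 hxs
      · exact (Set.pairwise_sUnion hchain.directedOn).2 fun s hs => (hc hs).2)
  have hYc := countable_of_sep S x Y hYmax.prop.1 hYmax.prop.2
  have key : ∀ y, y ≠ x → ∃ β ∈ Y, dist (S.φ x y) (S.φ x β) < 1 / 4 := by
    intro y hy
    by_contra h
    push Not at h
    have h1 : insert y Y ∈
        {Y : Set K | x ∉ Y ∧ Y.Pairwise fun β β' => 1 / 4 ≤ dist (S.φ x β) (S.φ x β')} := by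
      refine ⟨?_, ?_⟩
      · rintro (h2 | h2)
        · exact hy h2.symm
        · exact hYmax.prop.1 h2
      · refine hYmax.prop.2.insert ?_
        intro β hβ _
        exact ⟨h β hβ, by rw [dist_comm]; exact h β hβ⟩
    have h2 : y ∈ Y := hYmax.le_of_ge h1 (subset_insert _ _) (mem_insert _ _)
    have h3 := h y h2
    rw [dist_self] at h3
    norm_num at h3
  rcases Y.eq_empty_or_nonempty with hY0 | hYne
  · refine ⟨fun _ => 0, ?_⟩
    intro y hy
    obtain ⟨β, hβ, _⟩ := key y hy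
    rw [hY0] at hβ
    exact absurd hβ (Set.notMem_empty _)
  · obtain ⟨g, hg⟩ := hYc.exists_eq_range hYne
    refine ⟨fun n => S.φ x (g n), ?_⟩
    intro y hy
    obtain ⟨β, hβ, h⟩ := key y hy
    rw [hg] at hβ
    obtain ⟨n, rfl⟩ := hβ
    exact ⟨n, h⟩

/-- Countable closing-off. -/
theorem exists_closed_countable {ι : Type*} (E : Finset (ι × ℕ) → Set ι)
    (hE : ∀ I, (E I).Countable) :
    ∃ D : Set ι, D.Countable ∧ ∀ I : Finset (ι × ℕ), (∀ p ∈ I, p.1 ∈ D) → E I ⊆ D := by
  classical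
  let step : Set ι → Set ι := fun D =>
    D ∪ ⋃ I ∈ {I : Finset (ι × ℕ) | ∀ p ∈ I, p.1 ∈ D}, E I
  have hstepc : ∀ D : Set ι, D.Countable → (step D).Countable := by
    intro D hD
    refine hD.union (Set.Countable.biUnion ?_ fun I _ => hE I)
    have h1 : (D ×ˢ (univ : Set ℕ)).Countable := hD.prod countable_univ
    have h2 := Set.countable_ofPred_finite_subset h1
    have h3 : {I : Finset (ι × ℕ) | ∀ p ∈ I, p.1 ∈ D} =
        (fun I : Finset (ι × ℕ) => (I : Set (ι × ℕ))) ⁻¹'
          {t | t.Finite ∧ t ⊆ D ×ˢ (univ : Set ℕ)} := by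
      ext I
      constructor
      · intro h
        exact ⟨I.finite_toSet, fun p hp => ⟨h p hp, mem_univ _⟩⟩
      · intro h p hp
        exact (h.2 hp).1
    rw [h3]
    exact h2.preimage Finset.coe_injective
  let Dn : ℕ → Set ι := fun n => step^[n] ∅
  have hDs : ∀ n, Dn (n + 1) = step (Dn n) := fun n => Function.iterate_succ_apply' _ _ _
  have hDc : ∀ n, (Dn n).Countable := by
    intro n
    induction n with
    | zero => exact Set.countable_empty
    | succ n ih => rw [hDs]; exact hstepc _ ih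
  have hmono : Monotone Dn := by
    refine monotone_nat_of_le_succ ?_
    intro n
    rw [hDs]
    exact subset_union_left
  refine ⟨⋃ n, Dn n, Set.countable_iUnion hDc, ?_⟩
  intro I hI
  have h1 : ∃ n, ∀ p ∈ I, p.1 ∈ Dn n := by
    induction I using Finset.induction_on with
    | empty => exact ⟨0, by simp⟩
    | insert p I hp ih =>
      obtain ⟨n, hn⟩ := ih (fun q hq => hI q (Finset.mem_insert_of_mem hq))
      obtain ⟨m, hm⟩ := mem_iUnion.1 (hI p (Finset.mem_insert_self _ _))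
      refine ⟨max n m, ?_⟩
      intro q hq
      rcases Finset.mem_insert.1 hq with rfl | hq
      · exact hmono (le_max_right _ _) hm
      · exact hmono (le_max_left _ _) (hn q hq)
  obtain ⟨n, hn⟩ := h1
  refine Subset.trans ?_ (subset_iUnion Dn (n + 1))
  rw [hDs]
  refine Subset.trans ?_ subset_union_right
  intro z hz
  exact mem_iUnion₂.2 ⟨I, hn, hz⟩

/-- Countable sets approximating finitely many functions. -/
theorem exists_countable_approx (f : K × ℕ → C(K, ℝ)) (I : Finset (K × ℕ)) :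
    ∃ E : Set K, E.Countable ∧ ∀ y : K, ∀ u : K × ℕ → Set ℝ,
      (∀ i ∈ I, IsOpen (u i) ∧ f i y ∈ u i) → ∃ e ∈ E, ∀ i ∈ I, f i e ∈ u i := by
  let q : K → (I → ℝ) := fun z i => f i z
  have h1 : TopologicalSpace.IsSeparable (range q) :=
    TopologicalSpace.IsSeparable.of_separableSpace _
  obtain ⟨t, ht, htc, hst⟩ := h1.exists_countable_dense_subset
  have h2 : ∀ p ∈ t, ∃ z, q z = p := fun p hp => ht hp
  choose z hz using h2
  have := htc.to_subtype
  refine ⟨range (fun p : t => z p.1 p.2), countable_range _, ?_⟩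
  intro y u hu
  have h3 : q y ∈ closure t := hst (mem_range_self y)
  have h4 : IsOpen (Set.pi univ fun i : I => u i) :=
    isOpen_set_pi Set.finite_univ fun i _ => (hu i i.2).1
  obtain ⟨p, hp1, hp2⟩ := mem_closure_iff.1 h3 _ h4 (fun i _ => (hu i i.2).2)
  refine ⟨z p hp2, mem_range_self (⟨p, hp2⟩ : t), ?_⟩
  intro i hi
  have h5 := hp1 ⟨i, hi⟩ (mem_univ _)
  rw [← hz p hp2] at h5
  exact h5

/-- A compact Hausdorff space with a continuous separating family is metrizable. -/
theorem metrizable_of_sepFam [T2Space K] (S : SepFam K) : TopologicalSpace.MetrizableSpace K := by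
  choose a ha using exists_net S
  let f : K × ℕ → C(K, ℝ) := fun p => a p.1 p.2
  choose E hEc hE using exists_countable_approx f
  obtain ⟨D, hDc, hD⟩ := exists_closed_countable E hEc
  let J : Type _ := {p : K × ℕ // p.1 ∈ D}
  have hJc : Countable J := by
    have h1 : {p : K × ℕ | p.1 ∈ D}.Countable := by
      have : {p : K × ℕ | p.1 ∈ D} = D ×ˢ (univ : Set ℕ) := by
        ext p; simp
      rw [this]
      exact hDc.prod countable_univ
    exact h1.to_subtype
  let q : K → (J → ℝ) := fun z i => f i.1 z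
  have hq : Continuous q := continuous_pi fun i => (f i.1).continuous
  have hdense : ∀ y, ∃ p ∈ closure D, q p = q y := by
    intro y
    have h1 : q y ∈ closure (q '' D) := by
      rw [mem_closure_iff]
      intro o ho hyo
      obtain ⟨I, u, hu, hIu⟩ := isOpen_pi_iff.1 ho (q y) hyo
      classical
      let I' : Finset (K × ℕ) := I.image Subtype.val
      let u' : K × ℕ → Set ℝ := fun i => if h : i.1 ∈ D then u ⟨i, h⟩ else univ
      have h2 : ∀ i ∈ I', IsOpen (u' i) ∧ f i y ∈ u' i := by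
        intro i hi
        obtain ⟨j, hj, rfl⟩ := Finset.mem_image.1 hi
        have h3 : u' j.1 = u j := dif_pos j.2
        rw [h3]
        exact hu j hj
      obtain ⟨e, he, he2⟩ := hE I' y u' h2
      have h4 : e ∈ D := by
        refine hD I' ?_ he
        intro p hp
        obtain ⟨j, hj, rfl⟩ := Finset.mem_image.1 hp
        exact j.2
      refine ⟨q e, hIu ?_, mem_image_of_mem _ h4⟩
      intro i hi
      have h5 := he2 i.1 (Finset.mem_image_of_mem _ hi)
      have h3 : u' i.1 = u i := dif_pos i.2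
      rw [h3] at h5
      exact h5
    have h2 : IsClosed (q '' closure D) :=
      (isClosed_closure.isCompact.image hq).isClosed
    have h3 : closure (q '' D) ⊆ q '' closure D :=
      closure_minimal (image_mono subset_closure) h2
    obtain ⟨p, hp, h⟩ := h3 h1
    exact ⟨p, hp, h⟩
  have hsep : ∀ p ∈ closure D, ∀ y, q p = q y → y = p := by
    intro p hp y hqy
    by_contra hne
    have hpy : p ≠ y := fun h => hne h.symm
    have h1 : ∀ᶠ x' in 𝓝 p, dist (S.φ x' y) (S.φ p y) < 1 / 4 :=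
      (Metric.tendsto_nhds.1 (S.cont_left p y hpy)) _ (by norm_num)
    have h2 : ∀ᶠ x' in 𝓝 p, x' ≠ y := isOpen_ne.mem_nhds hpy
    obtain ⟨x', ⟨h3, h4⟩, hx'D⟩ := mem_closure_iff_nhds.1 hp _ (h1.and h2)
    have h3' : dist (S.φ x' y) (S.φ p y) < 1 / 4 := h3
    have h4' : x' ≠ y := h4
    obtain ⟨n, hn⟩ := ha x' y (fun h => h4' h.symm)
    have h5 : a x' n p = a x' n y := congrFun hqy ⟨(x', n), hx'D⟩
    have h6 := (ContinuousMap.dist_apply_le_dist (f := S.φ x' y) (g := S.φ p y) p).trans_lt h3'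
    have h7 := (ContinuousMap.dist_apply_le_dist (f := S.φ x' y) (g := a x' n) p).trans_lt hn
    have h8 := (ContinuousMap.dist_apply_le_dist (f := S.φ x' y) (g := a x' n) y).trans_lt hn
    rw [S.left_zero p y hpy, Real.dist_eq] at h6
    rw [Real.dist_eq] at h7
    rw [S.right_one x' y h4', Real.dist_eq] at h8
    have e1 := abs_lt.1 h6
    have e2 := abs_lt.1 h7
    have e3 := abs_lt.1 h8
    linarith [e1.2, e2.1, e3.2]
  have hinj : Function.Injective q := by
    intro x y hxy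
    obtain ⟨p, hp, hpx⟩ := hdense x
    rw [hsep p hp x hpx, hsep p hp y (hpx.trans hxy)]
  exact (hq.isClosedEmbedding hinj).isEmbedding.metrizableSpace

end Pool.Agent.Q196.CF
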