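import Pool.Agent.Q196.CF.Defs

/-! Compensation functions from nested partitions of unity. -/

namespace Pool.Agent.Q196.CF

open Set Topology Filter

set_option linter.unusedSectionVars false

/-- A sequence of finite partitions of unity, finer and finer. -/
structure Parts (K : Type*) [TopologicalSpace K] where
  m : ℕ → ℕ
  p : ℕ → ℕ → C(K, ℝ)
  nonneg : ∀ n i x, 0 ≤ p n i x
  out : ∀ n i, m n ≤ i → p n i = 0
  sum : ∀ n, ∑ i ∈ Finset.range (m n), p n i = 1
  small : ∀ (f : C(K, ℝ)) (ε : ℝ), 0 < ε → ∃ N, ∀ n ≥ N, ∀ i x y,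
    p n i x ≠ 0 → p n i y ≠ 0 → |f x - f y| ≤ ε

variable {K : Type*} [TopologicalSpace K] [CompactSpace K]

namespace Parts

variable (Q : Parts K)

/-- Products along a node. -/
noncomputable def P : List ℕ → C(K, ℝ)
  | [] => 1
  | i :: s => Q.p s.length i * P s

theorem P_nonneg (s : List ℕ) (x : K) : 0 ≤ Q.P s x := by
  induction s with
  | nil => exact zero_le_one
  | cons i s ih => exact mul_nonneg (Q.nonneg _ _ _) ih

theorem P_cons_ne {i : ℕ} {s : List ℕ} {x : K} (h : Q.P (i :: s) x ≠ 0) :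
    Q.p s.length i x ≠ 0 ∧ Q.P s x ≠ 0 := by
  have h1 : Q.P (i :: s) x = Q.p s.length i x * Q.P s x := rfl
  rw [h1] at h
  exact ⟨left_ne_zero_of_mul h, right_ne_zero_of_mul h⟩

theorem sum_P (s : List ℕ) :
    ∑ i ∈ Finset.range (Q.m s.length), Q.P (i :: s) = Q.P s := by
  have h1 : ∀ i, Q.P (i :: s) = Q.p s.length i * Q.P s := fun i => rfl
  simp_rw [h1]
  rw [← Finset.sum_mul, Q.sum, one_mul]

/-- Mass of the node. -/
noncomputable def t (μ : WeakDual ℝ C(K, ℝ)) (s : List ℕ) : ℝ := μ (Q.P s)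

/-- Sum of the positive parts of the children. -/
noncomputable def T (μ : WeakDual ℝ C(K, ℝ)) (s : List ℕ) : ℝ :=
  ∑ j ∈ Finset.range (Q.m s.length), max (Q.t μ (j :: s)) 0

/-- Compensated mass of the node. -/
noncomputable def N (μ : WeakDual ℝ C(K, ℝ)) : List ℕ → ℝ
  | [] => max (Q.t μ []) 0
  | i :: s => N μ s / Q.T μ s * max (Q.t μ (i :: s)) 0

theorem T_nonneg (μ : WeakDual ℝ C(K, ℝ)) (s : List ℕ) : 0 ≤ Q.T μ s :=
  Finset.sum_nonneg fun _ _ => le_max_right _ _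

theorem t_le_T (μ : WeakDual ℝ C(K, ℝ)) (s : List ℕ) : max (Q.t μ s) 0 ≤ Q.T μ s := by
  refine max_le ?_ (Q.T_nonneg μ s)
  unfold t
  rw [← Q.sum_P s, map_sum]
  exact Finset.sum_le_sum fun i _ => le_max_left _ _

theorem N_bounds (μ : WeakDual ℝ C(K, ℝ)) (s : List ℕ) :
    0 ≤ Q.N μ s ∧ Q.N μ s ≤ max (Q.t μ s) 0 := by
  induction s with
  | nil => exact ⟨le_max_right _ _, le_rfl⟩
  | cons i s ih =>
    have h1 : Q.N μ (i :: s) = Q.N μ s / Q.T μ s * max (Q.t μ (i :: s)) 0 := rfl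
    have h2 : 0 ≤ max (Q.t μ (i :: s)) 0 := le_max_right _ _
    have h3 : 0 ≤ Q.N μ s / Q.T μ s := div_nonneg ih.1 (Q.T_nonneg μ s)
    have h4 : Q.N μ s / Q.T μ s ≤ 1 :=
      div_le_one_of_le₀ (ih.2.trans (Q.t_le_T μ s)) (Q.T_nonneg μ s)
    rw [h1]
    refine ⟨mul_nonneg h3 h2, ?_⟩
    calc Q.N μ s / Q.T μ s * max (Q.t μ (i :: s)) 0 ≤ 1 * max (Q.t μ (i :: s)) 0 :=
          mul_le_mul_of_nonneg_right h4 h2
      _ = max (Q.t μ (i :: s)) 0 := one_mul _

theorem sum_N (μ : WeakDual ℝ C(K, ℝ)) (s : List ℕ) :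
    ∑ i ∈ Finset.range (Q.m s.length), Q.N μ (i :: s) = Q.N μ s := by
  have h1 : ∀ i, Q.N μ (i :: s) = Q.N μ s / Q.T μ s * max (Q.t μ (i :: s)) 0 := fun i => rfl
  simp_rw [h1]
  rw [← Finset.mul_sum]
  change Q.N μ s / Q.T μ s * Q.T μ s = Q.N μ s
  by_cases h : Q.T μ s = 0
  · have h2 := (Q.N_bounds μ s)
    have h3 := Q.t_le_T μ s
    have h4 : Q.N μ s = 0 := le_antisymm ((h2.2.trans h3).trans h.le) h2.1
    rw [h4, h]
    simp
  · exact div_mul_cancel₀ _ h

theorem continuous_t (s : List ℕ) : Continuous fun μ => Q.t μ s :=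
  WeakDual.eval_continuous _

theorem continuous_T (s : List ℕ) : Continuous fun μ => Q.T μ s :=
  continuous_finsetSum _ fun _ _ => (Q.continuous_t _).max continuous_const

theorem continuous_N (s : List ℕ) : Continuous fun μ => Q.N μ s := by
  induction s with
  | nil => exact (Q.continuous_t _).max continuous_const
  | cons i s ih =>
    rw [continuous_iff_continuousAt]
    intro μ
    have hm : ContinuousAt (fun μ => max (Q.t μ (i :: s)) 0) μ :=
      ((Q.continuous_t _).max continuous_const).continuousAt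
    by_cases h : Q.T μ s = 0
    · have h0 : max (Q.t μ (i :: s)) 0 = 0 := by
        by_cases hi : i ∈ Finset.range (Q.m s.length)
        · exact (Finset.sum_eq_zero_iff_of_nonneg
            (fun j _ => le_max_right (Q.t μ (j :: s)) 0)).1 h i hi
        · have h1 : Q.p s.length i = 0 := Q.out _ _ (by simpa using hi)
          have h2 : Q.P (i :: s) = 0 := by
            change Q.p s.length i * Q.P s = 0
            rw [h1, zero_mul]
          unfold t
          rw [h2, map_zero, max_self]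
      have h1 : Q.N μ (i :: s) = 0 :=
        le_antisymm ((Q.N_bounds μ (i :: s)).2.trans h0.le) (Q.N_bounds μ (i :: s)).1
      change Tendsto (fun μ' => Q.N μ' (i :: s)) (𝓝 μ) (𝓝 (Q.N μ (i :: s)))
      rw [h1]
      have hm' : Tendsto (fun μ' => max (Q.t μ' (i :: s)) 0) (𝓝 μ)
        (𝓝 (max (Q.t μ (i :: s)) 0)) := hm
      rw [h0] at hm'
      exact squeeze_zero (fun μ' => (Q.N_bounds μ' (i :: s)).1)
        (fun μ' => (Q.N_bounds μ' (i :: s)).2) hm'
    · exact ((ih.continuousAt).div (Q.continuous_T s).continuousAt h).mul hm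

section

variable [Nonempty K]

/-- A witness point of the node. -/
noncomputable def w (s : List ℕ) : K :=
  open Classical in
  if h : ∃ x, Q.P s x ≠ 0 then h.choose else Classical.arbitrary K

theorem w_spec {s : List ℕ} {x : K} (h : Q.P s x ≠ 0) : Q.P s (Q.w s) ≠ 0 := by
  have h1 : ∃ x, Q.P s x ≠ 0 := ⟨x, h⟩
  unfold w
  rw [dif_pos h1]
  exact h1.choose_spec

theorem N_zero (μ : WeakDual ℝ C(K, ℝ)) {s : List ℕ} (h : Q.P s (Q.w s) = 0) :
    Q.N μ s = 0 := by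
  have h1 : Q.P s = 0 := by
    ext x
    by_contra hx
    exact Q.w_spec hx h
  have h2 := Q.N_bounds μ s
  have h3 : Q.t μ s = 0 := by
    unfold t
    rw [h1, map_zero]
  rw [h3, max_self] at h2
  exact le_antisymm h2.2 h2.1

/-- The approximate compensated integral below a node. -/
noncomputable def D (μ : WeakDual ℝ C(K, ℝ)) (f : C(K, ℝ)) : ℕ → List ℕ → ℝ
  | 0, s => Q.N μ s * f (Q.w s)
  | j + 1, s => ∑ i ∈ Finset.range (Q.m s.length), D μ f j (i :: s)

theorem D_succ (μ : WeakDual ℝ C(K, ℝ)) (f : C(K, ℝ)) (j : ℕ) (s : List ℕ) :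
    Q.D μ f (j + 1) s = ∑ i ∈ Finset.range (Q.m s.length), Q.D μ f j (i :: s) := rfl

theorem D_bounds (μ : WeakDual ℝ C(K, ℝ)) (f : C(K, ℝ)) (A B : ℝ) (j : ℕ) :
    ∀ s : List ℕ, (∀ x, Q.P s x ≠ 0 → A ≤ f x ∧ f x ≤ B) →
      A * Q.N μ s ≤ Q.D μ f j s ∧ Q.D μ f j s ≤ B * Q.N μ s := by
  induction j with
  | zero =>
    intro s h
    change A * Q.N μ s ≤ Q.N μ s * f (Q.w s) ∧ Q.N μ s * f (Q.w s) ≤ B * Q.N μ s
    by_cases hw : Q.P s (Q.w s) = 0
    · rw [Q.N_zero μ hw]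
      simp
    · have h1 := h _ hw
      have h2 := (Q.N_bounds μ s).1
      constructor
      · rw [mul_comm]
        exact mul_le_mul_of_nonneg_left h1.1 h2
      · rw [mul_comm B]
        exact mul_le_mul_of_nonneg_left h1.2 h2
  | succ j ih =>
    intro s h
    rw [Q.D_succ, ← Q.sum_N μ s, Finset.mul_sum, Finset.mul_sum]
    have h1 : ∀ i, A * Q.N μ (i :: s) ≤ Q.D μ f j (i :: s) ∧
        Q.D μ f j (i :: s) ≤ B * Q.N μ (i :: s) := fun i =>
      ih (i :: s) fun x hx => h x (Q.P_cons_ne hx).2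
    exact ⟨Finset.sum_le_sum fun i _ => (h1 i).1, Finset.sum_le_sum fun i _ => (h1 i).2⟩

theorem D_cauchy (μ : WeakDual ℝ C(K, ℝ)) (f : C(K, ℝ)) (ε : ℝ) (L : ℕ)
    (hosc : ∀ s : List ℕ, L ≤ s.length → ∀ x y, Q.P s x ≠ 0 → Q.P s y ≠ 0 → |f x - f y| ≤ ε)
    (j l : ℕ) : ∀ s : List ℕ, L ≤ s.length + l →
      |Q.D μ f (l + j) s - Q.D μ f l s| ≤ ε * Q.N μ s := by
  induction l with
  | zero =>
    intro s hs
    rw [zero_add]
    change |Q.D μ f j s - Q.N μ s * f (Q.w s)| ≤ ε * Q.N μ s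
    by_cases hw : Q.P s (Q.w s) = 0
    · have h1 := Q.D_bounds μ f (f (Q.w s) - ε) (f (Q.w s) + ε) j s (by
        intro x hx
        exact absurd hw (Q.w_spec hx))
      rw [Q.N_zero μ hw] at h1 ⊢
      rw [abs_le]
      constructor <;> nlinarith [h1.1, h1.2]
    · have h1 := Q.D_bounds μ f (f (Q.w s) - ε) (f (Q.w s) + ε) j s (by
        intro x hx
        have h2 := abs_le.1 (hosc s (by simpa using hs) x (Q.w s) hx hw)
        constructor <;> linarith [h2.1, h2.2])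
      rw [abs_le]
      constructor <;> nlinarith [h1.1, h1.2]
  | succ l ih =>
    intro s hs
    have e : l + 1 + j = (l + j) + 1 := by ring
    rw [e, Q.D_succ, Q.D_succ, ← Finset.sum_sub_distrib, ← Q.sum_N μ s, Finset.mul_sum]
    refine (Finset.abs_sum_le_sum_abs _ _).trans (Finset.sum_le_sum fun i _ => ?_)
    refine ih (i :: s) ?_
    rw [List.length_cons]
    omega

theorem exists_osc (f : C(K, ℝ)) (ε : ℝ) (hε : 0 < ε) : ∃ L : ℕ, ∀ s : List ℕ,
    L ≤ s.length → ∀ x y, Q.P s x ≠ 0 → Q.P s y ≠ 0 → |f x - f y| ≤ ε := by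
  obtain ⟨N, hN⟩ := Q.small f ε hε
  refine ⟨N + 1, ?_⟩
  intro s hs x y hx hy
  cases s with
  | nil => simp at hs
  | cons i s =>
    exact hN s.length (by simpa using hs) i x y (Q.P_cons_ne hx).1 (Q.P_cons_ne hy).1

theorem D_add (μ : WeakDual ℝ C(K, ℝ)) (f g : C(K, ℝ)) (j : ℕ) :
    ∀ s, Q.D μ (f + g) j s = Q.D μ f j s + Q.D μ g j s := by
  induction j with
  | zero =>
    intro s
    change Q.N μ s * (f (Q.w s) + g (Q.w s)) = Q.N μ s * f (Q.w s) + Q.N μ s * g (Q.w s)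
    ring
  | succ j ih =>
    intro s
    rw [Q.D_succ, Q.D_succ, Q.D_succ, ← Finset.sum_add_distrib]
    exact Finset.sum_congr rfl fun i _ => ih _

theorem D_smul (μ : WeakDual ℝ C(K, ℝ)) (c : ℝ) (f : C(K, ℝ)) (j : ℕ) :
    ∀ s, Q.D μ (c • f) j s = c * Q.D μ f j s := by
  induction j with
  | zero =>
    intro s
    change Q.N μ s * (c * f (Q.w s)) = c * (Q.N μ s * f (Q.w s))
    ring
  | succ j ih =>
    intro s
    rw [Q.D_succ, Q.D_succ, Finset.mul_sum]
    exact Finset.sum_congr rfl fun i _ => ih _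

theorem continuous_D (f : C(K, ℝ)) (j : ℕ) : ∀ s, Continuous fun μ => Q.D μ f j s := by
  induction j with
  | zero => exact fun s => (Q.continuous_N s).mul continuous_const
  | succ j ih => exact fun s => continuous_finsetSum _ fun i _ => ih _

theorem exists_lim (μ : WeakDual ℝ C(K, ℝ)) (f : C(K, ℝ)) :
    ∃ a, Tendsto (fun k => Q.D μ f k []) atTop (𝓝 a) := by
  apply cauchySeq_tendsto_of_complete
  rw [Metric.cauchySeq_iff']
  intro ε hε
  have hN := (Q.N_bounds μ []).1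
  have hpos : 0 < Q.N μ [] + 1 := by linarith
  obtain ⟨L, hL⟩ := Q.exists_osc f (ε / (Q.N μ [] + 1)) (div_pos hε hpos)
  refine ⟨L, ?_⟩
  intro n hn
  have h1 := Q.D_cauchy μ f _ L hL (n - L) L [] (by simp)
  rw [Nat.add_sub_cancel' hn] at h1
  rw [Real.dist_eq]
  refine h1.trans_lt ?_
  rw [div_mul_eq_mul_div, div_lt_iff₀ hpos]
  nlinarith

/-- The limit functional. -/
noncomputable def Lam (μ : WeakDual ℝ C(K, ℝ)) (f : C(K, ℝ)) : ℝ := (Q.exists_lim μ f).choose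

theorem Lam_tendsto (μ : WeakDual ℝ C(K, ℝ)) (f : C(K, ℝ)) :
    Tendsto (fun k => Q.D μ f k []) atTop (𝓝 (Q.Lam μ f)) := (Q.exists_lim μ f).choose_spec

theorem Lam_add (μ : WeakDual ℝ C(K, ℝ)) (f g : C(K, ℝ)) :
    Q.Lam μ (f + g) = Q.Lam μ f + Q.Lam μ g := by
  refine tendsto_nhds_unique (Q.Lam_tendsto μ (f + g)) ?_
  simp_rw [Q.D_add μ f g]
  exact (Q.Lam_tendsto μ f).add (Q.Lam_tendsto μ g)

theorem Lam_smul (μ : WeakDual ℝ C(K, ℝ)) (c : ℝ) (f : C(K, ℝ)) :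
    Q.Lam μ (c • f) = c * Q.Lam μ f := by
  refine tendsto_nhds_unique (Q.Lam_tendsto μ (c • f)) ?_
  simp_rw [Q.D_smul μ c f]
  exact (Q.Lam_tendsto μ f).const_mul c

theorem Lam_bounds (μ : WeakDual ℝ C(K, ℝ)) (f : C(K, ℝ)) (A B : ℝ)
    (h : ∀ x, A ≤ f x ∧ f x ≤ B) :
    A * Q.N μ [] ≤ Q.Lam μ f ∧ Q.Lam μ f ≤ B * Q.N μ [] := by
  have h1 : ∀ k, A * Q.N μ [] ≤ Q.D μ f k [] ∧ Q.D μ f k [] ≤ B * Q.N μ [] := fun k =>
    Q.D_bounds μ f A B k [] fun x _ => h x
  exact ⟨ge_of_tendsto' (Q.Lam_tendsto μ f) fun k => (h1 k).1,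
    le_of_tendsto' (Q.Lam_tendsto μ f) fun k => (h1 k).2⟩

theorem Lam_abs (μ : WeakDual ℝ C(K, ℝ)) (f : C(K, ℝ)) :
    |Q.Lam μ f| ≤ Q.N μ [] * ‖f‖ := by
  have h := Q.Lam_bounds μ f (-‖f‖) ‖f‖ (fun x => abs_le.1 (f.norm_coe_le_norm x))
  rw [abs_le]
  constructor <;> linarith [h.1, h.2]

theorem Lam_approx (f : C(K, ℝ)) (ε : ℝ) (hε : 0 < ε) :
    ∃ L : ℕ, ∀ k ≥ L, ∀ μ, |Q.Lam μ f - Q.D μ f k []| ≤ ε * Q.N μ [] := by
  obtain ⟨L, hL⟩ := Q.exists_osc f ε hε
  refine ⟨L, ?_⟩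
  intro k hk μ
  have h1 : Tendsto (fun j => |Q.D μ f (k + j) [] - Q.D μ f k []|) atTop
      (𝓝 |Q.Lam μ f - Q.D μ f k []|) := by
    refine Tendsto.abs (Tendsto.sub_const ?_ _)
    have h2 := (tendsto_add_atTop_iff_nat k).2 (Q.Lam_tendsto μ f)
    simpa [add_comm] using h2
  refine le_of_tendsto' h1 fun j => ?_
  exact Q.D_cauchy μ f ε L hL j k [] (by simpa using hk)

theorem continuous_Lam (f : C(K, ℝ)) : Continuous fun μ => Q.Lam μ f := by
  refine continuous_of_locally_uniform_approx_of_continuousAt ?_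
  intro μ u hu
  obtain ⟨ε, hε, hεu⟩ := Metric.mem_uniformity_dist.1 hu
  have hN := (Q.N_bounds μ []).1
  have hpos : 0 < Q.N μ [] + 1 := by linarith
  obtain ⟨L, hL⟩ := Q.Lam_approx f (ε / 2 / (Q.N μ [] + 1)) (by positivity)
  refine ⟨{μ' | Q.N μ' [] < Q.N μ [] + 1}, ?_, fun μ' => Q.D μ' f L [],
    (Q.continuous_D f L []).continuousAt, ?_⟩
  · exact (Q.continuous_N []).continuousAt.eventually_lt_const (by linarith)
  · intro μ' hμ'
    have h1 : Q.N μ' [] < Q.N μ [] + 1 := hμ'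
    apply hεu
    rw [Real.dist_eq]
    refine (hL L le_rfl μ').trans_lt ?_
    have h2 : ε / 2 / (Q.N μ [] + 1) * Q.N μ' [] ≤
        ε / 2 / (Q.N μ [] + 1) * (Q.N μ [] + 1) :=
      mul_le_mul_of_nonneg_left h1.le (by positivity)
    rw [div_mul_cancel₀ _ hpos.ne'] at h2
    linarith

/-- The compensation function of the tree. -/
noncomputable def xi (μ : WeakDual ℝ C(K, ℝ)) : WeakDual ℝ C(K, ℝ) :=
  StrongDual.toWeakDual (LinearMap.mkContinuous
    { toFun := Q.Lam μ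
      map_add' := Q.Lam_add μ
      map_smul' := Q.Lam_smul μ } (Q.N μ []) (by
        intro f
        exact Q.Lam_abs μ f))

theorem xi_apply (μ : WeakDual ℝ C(K, ℝ)) (f : C(K, ℝ)) : Q.xi μ f = Q.Lam μ f := rfl

theorem continuous_xi : Continuous Q.xi := by
  refine WeakBilin.continuous_of_continuous_eval _ ?_
  intro f
  exact Q.continuous_Lam f

/-- The dominating functions. -/
noncomputable def H (μ : WeakDual ℝ C(K, ℝ)) (f : C(K, ℝ)) : ℕ → List ℕ → C(K, ℝ)
  | 0, s => open Classical in (if 0 ≤ Q.t μ s then f (Q.w s) else 0) • Q.P s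
  | j + 1, s => ∑ i ∈ Finset.range (Q.m s.length), H μ f j (i :: s)

theorem H_succ (μ : WeakDual ℝ C(K, ℝ)) (f : C(K, ℝ)) (j : ℕ) (s : List ℕ) :
    Q.H μ f (j + 1) s = ∑ i ∈ Finset.range (Q.m s.length), Q.H μ f j (i :: s) := rfl

theorem D_le_H (μ : WeakDual ℝ C(K, ℝ)) (f : C(K, ℝ)) (hf : 0 ≤ f) (j : ℕ) :
    ∀ s, Q.D μ f j s ≤ μ (Q.H μ f j s) := by
  induction j with
  | zero =>
    intro s
    change Q.N μ s * f (Q.w s) ≤ μ ((if 0 ≤ Q.t μ s then f (Q.w s) else 0) • Q.P s)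
    have h2 := Q.N_bounds μ s
    have h3 : 0 ≤ f (Q.w s) := hf _
    rw [map_smul, smul_eq_mul]
    change Q.N μ s * f (Q.w s) ≤ (if 0 ≤ Q.t μ s then f (Q.w s) else 0) * Q.t μ s
    split_ifs with h
    · rw [max_eq_left h] at h2
      rw [mul_comm]
      exact mul_le_mul_of_nonneg_left h2.2 h3
    · rw [max_eq_right (not_le.1 h).le] at h2
      have h4 : Q.N μ s = 0 := le_antisymm h2.2 h2.1
      rw [h4]
      simp
  | succ j ih =>
    intro s
    rw [Q.D_succ, Q.H_succ, map_sum]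
    exact Finset.sum_le_sum fun i _ => ih _

theorem H_nonneg (μ : WeakDual ℝ C(K, ℝ)) (f : C(K, ℝ)) (hf : 0 ≤ f) (j : ℕ) :
    ∀ s x, 0 ≤ Q.H μ f j s x := by
  induction j with
  | zero =>
    intro s x
    change 0 ≤ (if 0 ≤ Q.t μ s then f (Q.w s) else 0) * Q.P s x
    have h3 : 0 ≤ f (Q.w s) := hf _
    refine mul_nonneg ?_ (Q.P_nonneg s x)
    split_ifs
    · exact h3
    · exact le_rfl
  | succ j ih =>
    intro s x
    rw [Q.H_succ, ContinuousMap.sum_apply]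
    exact Finset.sum_nonneg fun i _ => ih _ _

theorem H_le (μ : WeakDual ℝ C(K, ℝ)) (f : C(K, ℝ)) (hf : 0 ≤ f) (ε : ℝ) (L : ℕ)
    (hosc : ∀ s : List ℕ, L ≤ s.length → ∀ x y, Q.P s x ≠ 0 → Q.P s y ≠ 0 → |f x - f y| ≤ ε)
    (hε : 0 ≤ ε) (j : ℕ) : ∀ s : List ℕ, L ≤ s.length + j →
      ∀ x, Q.H μ f j s x ≤ (f x + ε) * Q.P s x := by
  induction j with
  | zero =>
    intro s hs x
    change (if 0 ≤ Q.t μ s then f (Q.w s) else 0) * Q.P s x ≤ _
    by_cases hx : Q.P s x = 0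
    · rw [hx]; simp
    · have h1 := abs_le.1 (hosc s (by simpa using hs) x (Q.w s) hx (Q.w_spec hx))
      refine mul_le_mul_of_nonneg_right ?_ (Q.P_nonneg s x)
      have h3 : 0 ≤ f x := hf _
      split_ifs
      · linarith [h1.1]
      · linarith
  | succ j ih =>
    intro s hs x
    rw [Q.H_succ, ContinuousMap.sum_apply, ← Q.sum_P s, ContinuousMap.sum_apply,
      Finset.mul_sum]
    refine Finset.sum_le_sum fun i _ => ih (i :: s) ?_ x
    rw [List.length_cons]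
    omega

theorem Lam_le_posPart (μ : WeakDual ℝ C(K, ℝ)) (f : C(K, ℝ)) (hf : 0 ≤ f) :
    Q.Lam μ f ≤ posPart μ f := by
  set M : ℝ := ‖WeakDual.toStrongDual μ‖ with hM
  have hM0 : 0 ≤ M := ContinuousLinearMap.opNorm_nonneg _
  have key : ∀ ε > 0, Q.Lam μ f ≤ posPart μ f + M * ε := by
    intro ε hε
    obtain ⟨L, hL⟩ := Q.exists_osc f ε hε
    refine le_of_tendsto (Q.Lam_tendsto μ f) ?_
    filter_upwards [eventually_ge_atTop L] with k hk
    have h1 := Q.D_le_H μ f hf k []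
    have h2 := Q.H_nonneg μ f hf k []
    have h3 := Q.H_le μ f hf ε L hL hε.le k [] (by simpa using hk)
    set h := Q.H μ f k [] with hh
    have h4 : ∀ x, h x ≤ f x + ε := by
      intro x
      have := h3 x
      have e : Q.P [] x = 1 := rfl
      rw [e, mul_one] at this
      exact this
    have h5 : μ (h ⊓ f) ≤ posPart μ f :=
      le_posPart μ (fun x => le_min (h2 x) (hf x)) inf_le_right
    have h6 : μ (h - h ⊓ f) ≤ M * ε := by
      refine (apply_le_norm μ _).trans (mul_le_mul_of_nonneg_left ?_ hM0)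
      rw [ContinuousMap.norm_le _ hε.le]
      intro x
      have e : (h - h ⊓ f) x = h x - min (h x) (f x) := rfl
      rw [e, Real.norm_eq_abs, abs_le]
      have e1 := h4 x
      rcases le_total (h x) (f x) with hle | hle
      · rw [min_eq_left hle]
        constructor <;> linarith
      · rw [min_eq_right hle]
        constructor <;> linarith
    have h7 : μ h = μ (h ⊓ f) + μ (h - h ⊓ f) := by
      rw [← map_add]
      congr 1
      abel
    linarith
  refine le_of_forall_pos_le_add ?_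
  intro δ hδ
  have hM1 : 0 < M + 1 := by linarith
  have h1 := key (δ / (M + 1)) (div_pos hδ hM1)
  have h2 : M * (δ / (M + 1)) ≤ δ := by
    rw [← mul_div_assoc, div_le_iff₀ hM1]
    nlinarith
  linarith

theorem xi_compensation (μ : WeakDual ℝ C(K, ℝ)) : IsCompensation μ (Q.xi μ) := by
  have hN : Q.N μ [] = max (μ 1) 0 := rfl
  rcases lt_or_ge 0 (μ 1) with h | h
  · left
    refine ⟨h, ?_, ?_⟩
    · intro f hf
      refine ⟨?_, Q.Lam_le_posPart μ f hf⟩
      have h1 := (Q.Lam_bounds μ f 0 ‖f‖ fun x => ⟨hf x, (le_abs_self _).trans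
        (f.norm_coe_le_norm x)⟩).1
      rw [zero_mul] at h1
      exact h1
    · have h1 := Q.Lam_bounds μ 1 1 1 fun x => ⟨le_rfl, le_rfl⟩
      rw [hN, max_eq_left h.le, one_mul] at h1
      exact le_antisymm h1.2 h1.1
  · right
    refine ⟨h, ?_⟩
    apply ContinuousLinearMap.ext
    intro f
    have h1 := Q.Lam_abs μ f
    rw [hN, max_eq_right h, zero_mul] at h1
    exact abs_nonpos_iff.1 h1

end

end Parts

end Pool.Agent.Q196.CF
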